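import Pool.Agent.H14.LI.Grp

/-!
# The linear parts have determinant one
-/

set_option autoImplicit false
set_option linter.unusedSectionVars false

namespace Pool.Agent.H14.LI

open Module
open Pool.Agent.W594.SYZ2

variable {m : ℕ} [NeZero m]

/-- The determinants -/
noncomputable def D (ε : Fin 3 → ℤˣ) (f : Bool → Equiv.Perm (ZMod m)) : ℂ :=
  LinearMap.det (M ε f : V m →ₗ[ℂ] V m)

theorem D_mul (ε ε' : Fin 3 → ℤˣ) (f f' : Bool → Equiv.Perm (ZMod m)) :
    D (ε * ε') (f' * f) = D ε f * D ε' f' := by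
  rw [D, D, D, ← LinearMap.det_comp]
  congr 1
  exact LinearMap.ext fun v => (M_M ε ε' f f' v).symm

theorem D_one : D (1 : Fin 3 → ℤˣ) (1 : Bool → Equiv.Perm (ZMod m)) = 1 := by
  have : (M 1 1 : V m →ₗ[ℂ] V m) = LinearMap.id := LinearMap.ext fun v => M_one v
  rw [D, this, LinearMap.det_id]

/-- permutations of the coordinates and of the blocks -/
def R (σ : Equiv.Perm (Fin 3)) (τ : Equiv.Perm Bool) : V m →ₗ[ℂ] V m where
  toFun v := ⟨Sum.elim (fun k => v.1 (Sum.inl (σ k))) (fun p => v.1 (Sum.inr (τ p.1, p.2))),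
    fun b => v.2 (τ b)⟩
  map_add' _ _ := ext_V (fun _ => rfl) fun _ _ => rfl
  map_smul' _ _ := ext_V (fun _ => rfl) fun _ _ => rfl

theorem R_ne (σ : Equiv.Perm (Fin 3)) (τ : Equiv.Perm Bool) :
    LinearMap.det (R σ τ : V m →ₗ[ℂ] V m) ≠ 0 := by
  have h1 : R σ.symm τ.symm ∘ₗ R σ τ = (LinearMap.id : V m →ₗ[ℂ] V m) :=
    LinearMap.ext fun v => ext_V (fun k => by
      change v.1 (Sum.inl (σ (σ.symm k))) = v.1 (Sum.inl k)
      rw [Equiv.apply_symm_apply]) fun b i => by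
      change v.1 (Sum.inr (τ (τ.symm b), i)) = v.1 (Sum.inr (b, i))
      rw [Equiv.apply_symm_apply]
  have h2 := congrArg LinearMap.det h1
  rw [LinearMap.det_comp, LinearMap.det_id] at h2
  exact right_ne_zero_of_mul_eq_one h2

theorem D_conj (σ : Equiv.Perm (Fin 3)) (τ : Equiv.Perm Bool) (ε : Fin 3 → ℤˣ)
    (f : Bool → Equiv.Perm (ZMod m)) : D (ε ∘ σ) (f ∘ τ) = D ε f := by
  have h1 : R σ τ ∘ₗ M ε f = (M (ε ∘ σ) (f ∘ τ) ∘ₗ R σ τ : V m →ₗ[ℂ] V m) :=
    LinearMap.ext fun v => ext_V (fun k => rfl) fun b i => rfl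
  have h2 := congrArg LinearMap.det h1
  rw [LinearMap.det_comp, LinearMap.det_comp, mul_comm] at h2
  exact (mul_right_cancel₀ (R_ne σ τ) h2).symm

theorem D_ne (ε : Fin 3 → ℤˣ) (f : Bool → Equiv.Perm (ZMod m)) : D ε f ≠ 0 := by
  intro h
  have h1 := D_mul ε ε⁻¹ f f⁻¹
  rw [mul_inv_cancel, inv_mul_cancel, D_one, h, zero_mul] at h1
  exact one_ne_zero h1

theorem D_sg (e1 e2 : ℤˣ) : D (sg e1 e2) (1 : Bool → Equiv.Perm (ZMod m)) = 1 := by
  obtain ⟨d, hd⟩ : ∃ d, d = D (sg 1 (-1)) (1 : Bool → Equiv.Perm (ZMod m)) := ⟨_, rfl⟩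
  have h2 : D (sg (-1) 1) (1 : Bool → Equiv.Perm (ZMod m)) = d := by
    have h := D_conj (m := m) (Equiv.swap 0 1) 1 (sg 1 (-1)) 1
    have e : sg 1 (-1) ∘ (Equiv.swap (0 : Fin 3) 1) = sg (-1) 1 := by
      funext k
      fin_cases k <;> decide
    rw [e] at h
    rw [hd]
    exact h
  have h3 : D (sg (-1) (-1)) (1 : Bool → Equiv.Perm (ZMod m)) = d := by
    have h := D_conj (m := m) (Equiv.swap 0 2) 1 (sg 1 (-1)) 1
    have e : sg 1 (-1) ∘ (Equiv.swap (0 : Fin 3) 2) = sg (-1) (-1) := by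
      funext k
      fin_cases k <;> decide
    rw [e] at h
    rw [hd]
    exact h
  have h4 : d = d * d := by
    have h := D_mul (m := m) (sg 1 (-1)) (sg (-1) 1) 1 1
    rw [← sg_mul, one_mul, mul_one, mul_one, h2, ← hd, h3] at h
    exact h
  have hd0 : d ≠ 0 := by
    rw [hd]
    exact D_ne _ _
  have hd1 : d = 1 := by
    apply mul_left_cancel₀ hd0
    rw [← h4, mul_one]
  rcases Int.units_eq_one_or e1 with rfl | rfl <;> rcases Int.units_eq_one_or e2 with rfl | rfl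
  · have e : sg 1 1 = 1 := by
      funext k
      fin_cases k <;> rfl
    rw [e, D_one]
  · rw [← hd, hd1]
  · rw [h2, hd1]
  · rw [h3, hd1]

/-- the permutation of one block -/
def ob (p : Equiv.Perm (ZMod m)) : Bool → Equiv.Perm (ZMod m) := fun b => if b then p else 1

theorem D_const (p : Equiv.Perm (ZMod m)) : D 1 (fun _ => p) = D 1 (ob p) * D 1 (ob p) := by
  have h1 : D (1 : Fin 3 → ℤˣ) (ob p ∘ (Equiv.swap true false)) = D 1 (ob p) :=
    D_conj 1 (Equiv.swap true false) 1 (ob p)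
  have h2 : (fun _ => p) = (ob p ∘ (Equiv.swap true false)) * ob p := by
    funext b
    cases b
    · simp [ob]
    · simp [ob]
  rw [h2]
  have h3 := D_mul (m := m) 1 1 (ob p) (ob p ∘ (Equiv.swap true false))
  rw [mul_one] at h3
  rw [h3, h1]

theorem ob_mul (p q : Equiv.Perm (ZMod m)) : ob (p * q) = ob p * ob q := by
  funext b
  cases b
  · simp [ob]
  · simp [ob]

theorem D_ob_mul (p q : Equiv.Perm (ZMod m)) : D 1 (ob (p * q)) = D 1 (ob q) * D 1 (ob p) := by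
  have h3 := D_mul (m := m) 1 1 (ob q) (ob p)
  rwa [mul_one, ← ob_mul] at h3

theorem D_inv {p : Equiv.Perm (ZMod m)} (h : p * p = 1) : D 1 (ob p) * D 1 (ob p) = 1 := by
  rw [← D_ob_mul, h]
  have : ob (1 : Equiv.Perm (ZMod m)) = 1 := by
    funext b
    cases b <;> rfl
  rw [this, D_one]

theorem pm_neg_sq (a : ZMod m) : pm (-1) a * pm (-1) a = 1 := by
  ext i
  rw [Equiv.Perm.mul_apply, pm_apply, pm_apply, cz, Equiv.Perm.one_apply]
  push_cast
  ring

/-- All determinants are `1`. -/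
theorem D_pm (e : ℤˣ) (a : ZMod m) : D 1 (fun _ => pm e a) = 1 := by
  rw [D_const]
  rcases Int.units_eq_one_or e with rfl | rfl
  · have h1 : pm 1 a = pm (-1) 0 * pm (-1) a := by
      ext i
      rw [Equiv.Perm.mul_apply, pm_apply, pm_apply, pm_apply, cz, cz]
      push_cast
      ring
    rw [h1, D_ob_mul]
    have h2 := D_inv (pm_neg_sq (m := m) a)
    have h3 := D_inv (pm_neg_sq (m := m) 0)
    linear_combination (D 1 (ob (pm (-1) (0 : ZMod m)))) ^ 2 * h2 + h3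
  · exact D_inv (pm_neg_sq a)

theorem det_A (e1 e2 : ℤˣ) (a : ZMod m) : LinearMap.det (A e1 e2 a : V m →ₗ[ℂ] V m) = 1 := by
  have h := D_mul (m := m) (sg e1 e2) 1 1 (fun _ => pm e1 a)
  rw [mul_one, mul_one, D_sg, D_pm, mul_one] at h
  exact h

theorem det_eq {γ : V m ≃ᵃ[ℂ] V m} (hγ : γ ∈ Gam m) :
    LinearMap.det (γ.linear : V m →ₗ[ℂ] V m) = 1 := by
  obtain ⟨e1, e2, a, w, h⟩ := hγ
  have : (γ.linear : V m →ₗ[ℂ] V m) = A e1 e2 a := LinearMap.ext fun v => h.linear v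
  rw [this]
  exact det_A e1 e2 a

end Pool.Agent.H14.LI
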