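import Pool.Graph.R_pool_sql_team_seeded_3997aac3.Q36.EI.Bun

/-!
# Smooth torus quotients with trivial canonical bundle: the group
-/

set_option autoImplicit false
set_option linter.unusedSectionVars false

namespace Pool.Agent.H14.LI

open Module
open Pool.Agent.W594.SYZ2 Pool.Agent.TH735.AQ Pool.Agent.Y167
open Q276.SYZ (IsGauss isGauss_zero isGauss_one gauss_small isGauss_int)
open Q47.EB.Ex (gauss_mul)

variable {m : ℕ} [NeZero m]

theorem m_ne : (m : ℂ) ≠ 0 := by exact_mod_cast NeZero.ne m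

/-- `z = n / m + l i / 2` with `n = c` modulo `m` and `(-1) ^ l = e`. -/
def Cg (c : ZMod m) (e : ℤˣ) (z : ℂ) : Prop :=
  ∃ n l : ℤ, (n : ZMod m) = c ∧ l.negOnePow = e ∧ z = n / m + l / 2 * Complex.I

theorem Cg.add {c c' : ZMod m} {e e' : ℤˣ} {z z' : ℂ} (h : Cg c e z) (h' : Cg c' e' z') :
    Cg (c + c') (e * e') (z + z') := by
  obtain ⟨n, l, rfl, rfl, rfl⟩ := h
  obtain ⟨n', l', rfl, rfl, rfl⟩ := h'
  exact ⟨n + n', l + l', by push_cast; rfl, Int.negOnePow_add l l', by push_cast; ring⟩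

theorem Cg.smul {c : ZMod m} {e : ℤˣ} {z : ℂ} (h : Cg c e z) (u : ℤˣ) :
    Cg (((u : ℤ) : ZMod m) * c) e (((u : ℤ) : ℂ) * z) := by
  obtain ⟨n, l, rfl, rfl, rfl⟩ := h
  rcases Int.units_eq_one_or u with rfl | rfl
  · exact ⟨n, l, by simp, rfl, by simp⟩
  · exact ⟨-n, -l, by simp, by simp [Int.negOnePow_neg], by simp; ring⟩

theorem Cg.gauss {c : ZMod m} {e : ℤˣ} {z : ℂ} (h : Cg c e z) : IsGauss (2 * m * z) := by
  obtain ⟨n, l, rfl, rfl, rfl⟩ := h
  refine ⟨2 * n, m * l, ?_⟩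
  have := m_ne (m := m)
  push_cast
  field_simp

theorem cg_zero {c : ZMod m} {e : ℤˣ} (h : Cg c e 0) : c = 0 ∧ e = 1 := by
  obtain ⟨n, l, rfl, rfl, h⟩ := h
  have hm := m_ne (m := m)
  have e1 : ((n : ℝ) / m : ℝ) = 0 ∧ ((l : ℝ) / 2 : ℝ) = 0 := by
    have h2 : (((n : ℝ) / m : ℝ) : ℂ) + (((l : ℝ) / 2 : ℝ) : ℂ) * Complex.I = 0 := by
      push_cast
      exact h.symm
    constructor
    · have := congrArg Complex.re h2
      simpa [-Complex.ofReal_div] using this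
    · have := congrArg Complex.im h2
      simpa [-Complex.ofReal_div] using this
  have hm' : (m : ℝ) ≠ 0 := by exact_mod_cast NeZero.ne m
  have hn : n = 0 := by
    have := e1.1
    rw [div_eq_zero_iff] at this
    rcases this with h | h
    · exact_mod_cast h
    · exact absurd h hm'
  have hl : l = 0 := by
    have := e1.2
    rw [div_eq_zero_iff] at this
    rcases this with h | h
    · exact_mod_cast h
    · norm_num at h
  subst hn hl
  simp

theorem cg_gauss {z : ℂ} (h : IsGauss z) : Cg (0 : ZMod m) 1 z := by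
  obtain ⟨p, q, rfl⟩ := h
  refine ⟨m * p, 2 * q, by simp, ?_, ?_⟩
  · rw [Int.negOnePow_even _ (even_two_mul q)]
  · have := m_ne (m := m)
    push_cast
    field_simp

/-- a number with given data -/
theorem cg_exists (c : ZMod m) (e : ℤˣ) : ∃ z, Cg c e z := by
  have h1 : Cg c 1 ((c.val : ℂ) / m) := ⟨c.val, 0, by simp, by simp, by simp⟩
  rcases Int.units_eq_one_or e with rfl | rfl
  · exact ⟨_, h1⟩
  · exact ⟨(c.val : ℂ) / m + 1 / 2 * Complex.I, c.val, 1, by simp, by simp, by simp⟩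

/-! ### The vector space -/

variable (m) in
/-- The coordinates. -/
abbrev J : Type := Fin 3 ⊕ (Bool × ZMod m)

variable (m) in
/-- The functions with sum zero in every block. -/
def S : Submodule ℂ (J m → ℂ) where
  carrier := {v | ∀ b, ∑ i, v (Sum.inr (b, i)) = 0}
  zero_mem' := fun b => by simp
  add_mem' := fun {v w} hv hw b => by
    change ∑ i, (v (Sum.inr (b, i)) + w (Sum.inr (b, i))) = 0
    rw [Finset.sum_add_distrib, hv b, hw b, add_zero]
  smul_mem' := fun c v hv b => by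
    change ∑ i, c * v (Sum.inr (b, i)) = 0
    rw [← Finset.mul_sum, hv b, mul_zero]

variable (m) in
/-- The vector space. -/
abbrev V : Type := S m

theorem ext_V {v w : V m} (h1 : ∀ k, v.1 (Sum.inl k) = w.1 (Sum.inl k))
    (h2 : ∀ b i, v.1 (Sum.inr (b, i)) = w.1 (Sum.inr (b, i))) : v = w :=
  Subtype.ext (funext fun j => by
    rcases j with k | ⟨b, i⟩
    · exact h1 k
    · exact h2 b i)

/-- The linear maps. -/
def M (ε : Fin 3 → ℤˣ) (f : Bool → Equiv.Perm (ZMod m)) : V m →ₗ[ℂ] V m where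
  toFun v := ⟨Sum.elim (fun k => ((ε k : ℤ) : ℂ) * v.1 (Sum.inl k))
    (fun p => v.1 (Sum.inr (p.1, f p.1 p.2))), fun b => by
      change ∑ i, v.1 (Sum.inr (b, f b i)) = 0
      rw [← v.2 b]
      exact Equiv.sum_comp (f b) fun i => v.1 (Sum.inr (b, i))⟩
  map_add' v w := ext_V (fun k => mul_add _ _ _) fun b i => rfl
  map_smul' c v := ext_V (fun k => by
    change ((ε k : ℤ) : ℂ) * (c * v.1 (Sum.inl k)) = c * (((ε k : ℤ) : ℂ) * v.1 (Sum.inl k))
    ring) fun b i => rfl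

theorem M_inl (ε : Fin 3 → ℤˣ) (f : Bool → Equiv.Perm (ZMod m)) (v : V m) (k : Fin 3) :
    (M ε f v).1 (Sum.inl k) = ((ε k : ℤ) : ℂ) * v.1 (Sum.inl k) := rfl

theorem M_inr (ε : Fin 3 → ℤˣ) (f : Bool → Equiv.Perm (ZMod m)) (v : V m) (b : Bool)
    (i : ZMod m) : (M ε f v).1 (Sum.inr (b, i)) = v.1 (Sum.inr (b, f b i)) := rfl

theorem M_M (ε ε' : Fin 3 → ℤˣ) (f f' : Bool → Equiv.Perm (ZMod m)) (v : V m) :
    M ε f (M ε' f' v) = M (ε * ε') (f' * f) v :=
  ext_V (fun k => by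
    simp only [M_inl, Pi.mul_apply, Units.val_mul]
    push_cast
    ring) fun b i => rfl

theorem M_one (v : V m) : M 1 1 v = v := ext_V (fun k => by simp [M_inl]) fun b i => rfl

def cz (e : ℤˣ) : ZMod m := ((e : ℤ) : ZMod m)

theorem cz_sq (e : ℤˣ) : (cz e : ZMod m) * cz e = 1 := by
  rcases Int.units_eq_one_or e with rfl | rfl <;> simp [cz]

theorem cz_mul (e e' : ℤˣ) : (cz (e * e') : ZMod m) = cz e * cz e' := by
  simp [cz]

/-- The permutation `i ↦ e (i - a)`. -/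
def pm (e : ℤˣ) (a : ZMod m) : Equiv.Perm (ZMod m) where
  toFun i := cz e * (i - a)
  invFun i := cz e * i + a
  left_inv i := by
    have := cz_sq (m := m) e
    change cz e * (cz e * (i - a)) + a = i
    linear_combination (i - a) * this
  right_inv i := by
    have := cz_sq (m := m) e
    change cz e * (cz e * i + a - a) = i
    linear_combination i * this

theorem pm_apply (e : ℤˣ) (a i : ZMod m) : pm e a i = cz e * (i - a) := rfl

theorem pm_mul (e e' : ℤˣ) (a a' : ZMod m) :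
    pm e' a' * pm e a = pm (e * e') (a + cz e * a') := by
  ext i
  have := cz_sq (m := m) e
  rw [Equiv.Perm.mul_apply, pm_apply, pm_apply, pm_apply, cz_mul]
  linear_combination (cz e' * a') * this

theorem pm_one : pm (1 : ℤˣ) (0 : ZMod m) = 1 := by
  ext i
  simp [pm_apply, cz]

/-- signs of the first three coordinates -/
def sg (e1 e2 : ℤˣ) : Fin 3 → ℤˣ := ![e1, e2, e1 * e2]

/-- classes of the imaginary parts of the translations -/
def et (e1 e2 : ℤˣ) : Fin 3 → ℤˣ := ![e2, e1 * e2, e1]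

/-- classes of the real parts of the translations -/
def cc (a : ZMod m) : Fin 3 → ZMod m := ![a, 0, 0]

theorem sg_mul (e1 e2 e1' e2' : ℤˣ) : sg (e1 * e1') (e2 * e2') = sg e1 e2 * sg e1' e2' := by
  funext k
  fin_cases k
  · rfl
  · rfl
  · exact mul_mul_mul_comm e1 e1' e2 e2'

theorem et_mul (e1 e2 e1' e2' : ℤˣ) (k : Fin 3) :
    et (e1 * e1') (e2 * e2') k = et e1' e2' k * et e1 e2 k := by
  fin_cases k
  · exact mul_comm e2 e2'
  · change e1 * e1' * (e2 * e2') = e1' * e2' * (e1 * e2)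
    rw [mul_mul_mul_comm, mul_comm]
  · exact mul_comm e1 e1'

/-- The linear parts. -/
def A (e1 e2 : ℤˣ) (a : ZMod m) : V m →ₗ[ℂ] V m := M (sg e1 e2) fun _ => pm e1 a

theorem A_A (e1 e2 e1' e2' : ℤˣ) (a a' : ZMod m) (v : V m) :
    A e1 e2 a (A e1' e2' a' v) = A (e1 * e1') (e2 * e2') (a + cz e1 * a') v := by
  rw [A, A, A, M_M, sg_mul]
  congr 2
  funext b
  exact pm_mul _ _ _ _

theorem A_one (v : V m) : A 1 1 0 v = v := by
  have h1 : sg 1 1 = 1 := by
    funext k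
    fin_cases k <;> rfl
  have h2 : (fun _ : Bool => pm (1 : ℤˣ) (0 : ZMod m)) = 1 := by
    funext b
    exact pm_one
  rw [A, h1, h2, M_one]

theorem inv_data (e : ℤˣ) (a : ZMod m) : -(cz e * a) + cz e * a = 0 := by ring

theorem A_inv (e1 e2 : ℤˣ) (a : ZMod m) (v : V m) :
    A e1 e2 (-(cz e1 * a)) (A e1 e2 a v) = v := by
  rw [A_A, inv_data, Int.units_mul_self, Int.units_mul_self, A_one]

theorem A_inv' (e1 e2 : ℤˣ) (a : ZMod m) (v : V m) :
    A e1 e2 a (A e1 e2 (-(cz e1 * a)) v) = v := by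
  have h : a + cz e1 * -(cz e1 * a) = 0 := by
    have := cz_sq (m := m) e1
    linear_combination -a * this
  rw [A_A, h, Int.units_mul_self, Int.units_mul_self, A_one]

/-- The transformation `v ↦ A v + w`. -/
structure Rep (γ : V m ≃ᵃ[ℂ] V m) (e1 e2 : ℤˣ) (a : ZMod m) (w : V m) : Prop where
  cong : ∀ k, Cg (cc a k) (et e1 e2 k) (w.1 (Sum.inl k))
  diff : ∀ b i i', IsGauss (w.1 (Sum.inr (b, i)) - w.1 (Sum.inr (b, i')))
  eq : ∀ v, γ v = A e1 e2 a v + w

theorem Rep.mul {γ δ : V m ≃ᵃ[ℂ] V m} {e1 e2 e1' e2' : ℤˣ} {a a' : ZMod m} {w w' : V m}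
    (h : Rep γ e1 e2 a w) (h' : Rep δ e1' e2' a' w') :
    Rep (γ * δ) (e1 * e1') (e2 * e2') (a + cz e1 * a') (A e1 e2 a w' + w) where
  cong := fun k => by
    have h1 := ((h'.cong k).smul (sg e1 e2 k)).add (h.cong k)
    rw [← et_mul] at h1
    have h2 : (((sg e1 e2 k : ℤˣ) : ℤ) : ZMod m) * cc a' k + cc a k = cc (a + cz e1 * a') k := by
      fin_cases k
      · exact add_comm _ _
      · simp [cc]
      · simp [cc]
    rw [h2] at h1
    exact h1
  diff := fun b i i' => by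
    have h1 := (h'.diff b (pm e1 a i) (pm e1 a i')).add (h.diff b i i')
    have h2 : (A e1 e2 a w' + w).1 (Sum.inr (b, i)) - (A e1 e2 a w' + w).1 (Sum.inr (b, i'))
        = w'.1 (Sum.inr (b, pm e1 a i)) - w'.1 (Sum.inr (b, pm e1 a i'))
          + (w.1 (Sum.inr (b, i)) - w.1 (Sum.inr (b, i'))) := by
      change w'.1 (Sum.inr (b, pm e1 a i)) + w.1 (Sum.inr (b, i))
        - (w'.1 (Sum.inr (b, pm e1 a i')) + w.1 (Sum.inr (b, i'))) = _
      ring
    rw [h2]
    exact h1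
  eq := fun v => by
    change γ (δ v) = _
    rw [h.eq, h'.eq, map_add, A_A, add_assoc]

theorem Rep.one : Rep (1 : V m ≃ᵃ[ℂ] V m) 1 1 0 0 where
  cong := fun k => by
    have h1 : cc (0 : ZMod m) k = 0 := by fin_cases k <;> rfl
    have h2 : et 1 1 k = 1 := by fin_cases k <;> rfl
    rw [h1, h2]
    exact cg_gauss isGauss_zero
  diff := fun b i i' => by
    change IsGauss ((0 : ℂ) - 0)
    rw [sub_zero]
    exact isGauss_zero
  eq := fun v => by
    rw [A_one, add_zero]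
    rfl

theorem Rep.inv {γ : V m ≃ᵃ[ℂ] V m} {e1 e2 : ℤˣ} {a : ZMod m} {w : V m} (h : Rep γ e1 e2 a w) :
    Rep γ⁻¹ e1 e2 (-(cz e1 * a)) (-(A e1 e2 (-(cz e1 * a)) w)) where
  cong := fun k => by
    have h1 := (h.cong k).smul (-(sg e1 e2 k))
    have h2 : (((-(sg e1 e2 k) : ℤˣ) : ℤ) : ZMod m) * cc a k = cc (-(cz e1 * a)) k := by
      fin_cases k
      · simp [cc, sg, cz]
      · simp [cc]
      · simp [cc]
    rw [h2] at h1
    have h3 : (((-(sg e1 e2 k) : ℤˣ) : ℤ) : ℂ) * w.1 (Sum.inl k)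
        = (-(A e1 e2 (-(cz e1 * a)) w)).1 (Sum.inl k) := by
      change _ = -((((sg e1 e2 k : ℤˣ) : ℤ) : ℂ) * w.1 (Sum.inl k))
      push_cast
      ring
    rwa [h3] at h1
  diff := fun b i i' => by
    have h1 := (h.diff b (pm e1 (-(cz e1 * a)) i') (pm e1 (-(cz e1 * a)) i))
    have h2 : (-(A e1 e2 (-(cz e1 * a)) w)).1 (Sum.inr (b, i))
        - (-(A e1 e2 (-(cz e1 * a)) w)).1 (Sum.inr (b, i'))
        = w.1 (Sum.inr (b, pm e1 (-(cz e1 * a)) i')) - w.1 (Sum.inr (b, pm e1 (-(cz e1 * a)) i)) := by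
      change -w.1 (Sum.inr (b, pm e1 (-(cz e1 * a)) i))
        - -w.1 (Sum.inr (b, pm e1 (-(cz e1 * a)) i')) = _
      ring
    rw [h2]
    exact h1
  eq := fun v => by
    change γ.symm v = _
    rw [AffineEquiv.symm_apply_eq, h.eq, map_add, map_neg, A_inv', A_inv', neg_add_cancel_right]

variable (m) in
/-- The group. -/
def Gam : Subgroup (V m ≃ᵃ[ℂ] V m) where
  carrier := {γ | ∃ (e1 e2 : ℤˣ) (a : ZMod m) (w : V m), Rep γ e1 e2 a w}
  mul_mem' := by
    rintro γ δ ⟨e1, e2, a, w, h⟩ ⟨e1', e2', a', w', h'⟩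
    exact ⟨_, _, _, _, h.mul h'⟩
  one_mem' := ⟨1, 1, 0, 0, Rep.one⟩
  inv_mem' := by
    rintro γ ⟨e1, e2, a, w, h⟩
    exact ⟨_, _, _, _, h.inv⟩

/-- The transformation with given data. -/
theorem exists_rep (e1 e2 : ℤˣ) (a : ZMod m) (w : V m)
    (h1 : ∀ k, Cg (cc a k) (et e1 e2 k) (w.1 (Sum.inl k)))
    (h2 : ∀ b i i', IsGauss (w.1 (Sum.inr (b, i)) - w.1 (Sum.inr (b, i')))) :
    ∃ γ : V m ≃ᵃ[ℂ] V m, Rep γ e1 e2 a w := by
  refine ⟨(LinearEquiv.ofLinearMap (A e1 e2 a) (A e1 e2 (-(cz e1 * a)))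
    (LinearMap.ext fun v => A_inv' e1 e2 a v)
    (LinearMap.ext fun v => A_inv e1 e2 a v)).toAffineEquiv.trans
        (AffineEquiv.constVAdd ℂ (V m) w), h1, h2, fun v => ?_⟩
  exact add_comm _ _

theorem Rep.linear {γ : V m ≃ᵃ[ℂ] V m} {e1 e2 : ℤˣ} {a : ZMod m} {w : V m}
    (h : Rep γ e1 e2 a w) (v : V m) : γ.linear v = A e1 e2 a v := by
  have h1 := TQ.act γ v
  rw [h.eq v, h.eq 0, map_zero, zero_add] at h1
  exact (add_right_cancel h1).symm

theorem Rep.zero {γ : V m ≃ᵃ[ℂ] V m} {e1 e2 : ℤˣ} {a : ZMod m} {w : V m}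
    (h : Rep γ e1 e2 a w) : γ 0 = w := by
  rw [h.eq, map_zero, zero_add]

/-- all data occur -/
theorem exists_elt (e1 e2 : ℤˣ) (a : ZMod m) : ∃ (w : V m) (γ : V m ≃ᵃ[ℂ] V m),
    Rep γ e1 e2 a w := by
  choose z hz using fun k => cg_exists (cc a k) (et e1 e2 k)
  have hw : ∀ b : Bool, ∑ i : ZMod m, (Sum.elim z (fun _ => 0) : J m → ℂ) (Sum.inr (b, i)) = 0 :=
    fun b => by simp
  obtain ⟨γ, h⟩ := exists_rep e1 e2 a (⟨Sum.elim z fun _ => 0, hw⟩ : V m) hz fun b i i' => by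
    change IsGauss ((0 : ℂ) - 0)
    rw [sub_zero]
    exact isGauss_zero
  exact ⟨_, γ, h⟩

/-- The group acts freely. -/
theorem free {γ : V m ≃ᵃ[ℂ] V m} (hγ : γ ∈ Gam m) {v : V m} (hv : γ v = v) : γ = 1 := by
  obtain ⟨e1, e2, a, w, h⟩ := hγ
  have h1 := h.eq v
  rw [hv] at h1
  have hk : ∀ k, v.1 (Sum.inl k) = ((sg e1 e2 k : ℤ) : ℂ) * v.1 (Sum.inl k) + w.1 (Sum.inl k) :=
    fun k => congrFun (congrArg Subtype.val h1) (Sum.inl k)
  have key : ∀ k, sg e1 e2 k = 1 → cc a k = 0 ∧ et e1 e2 k = 1 := by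
    intro k hs
    have h2 := hk k
    rw [hs, Units.val_one, Int.cast_one, one_mul, eq_comm, add_eq_left] at h2
    have h3 := h.cong k
    rw [h2] at h3
    exact cg_zero h3
  have hne : ¬ ((-1 : ℤˣ) = 1) := by decide
  rcases Int.units_eq_one_or e1 with rfl | rfl <;> rcases Int.units_eq_one_or e2 with rfl | rfl
  · have ha : a = 0 := (key 0 rfl).1
    subst ha
    rw [A_one, eq_comm, add_eq_left] at h1
    apply AffineEquiv.ext
    intro x
    rw [h.eq, A_one, h1, add_zero]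
    rfl
  · exact absurd (key 0 rfl).2 hne
  · exact absurd (key 1 rfl).2 hne
  · exact absurd (key 2 (by decide)).2 hne

end Pool.Agent.H14.LI
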