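import Pool.Agent.H14.LI.Grp

/-!
# The quotients are torus quotients; dimension, determinants, `H^1(X, O_X) = 0`
-/

set_option autoImplicit false
set_option linter.unusedSectionVars false

namespace Pool.Agent.H14.LI

open Module
open Pool.Agent.W594.SYZ2 Pool.Agent.TH735.AQ Pool.Agent.Y167
open Q276.SYZ (IsGauss isGauss_zero isGauss_one gauss_small isGauss_int)
open Q47.EB.Ex (gauss_mul)

variable {m : ℕ} [NeZero m]

/-- Gaussian vectors. -/
def IsG (v : V m) : Prop := ∀ j, IsGauss (v.1 j)

theorem IsG.rep {w : V m} (hw : IsG w) : ∃ γ : V m ≃ᵃ[ℂ] V m, Rep γ 1 1 0 w :=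
  exists_rep 1 1 0 w (fun k => by
    have h1 : cc (0 : ZMod m) k = 0 := by fin_cases k <;> rfl
    have h2 : et 1 1 k = 1 := by fin_cases k <;> rfl
    rw [h1, h2]
    exact cg_gauss (hw _)) fun b i i' => by
      rw [sub_eq_add_neg]
      exact (hw _).add (hw _).neg

variable (m) in
/-- The lattice of the Gaussian vectors. -/
def Lam : AddSubgroup (V m) where
  carrier := {v | IsG v}
  zero_mem' := fun _ => isGauss_zero
  add_mem' := fun h h' j => (h j).add (h' j)
  neg_mem' := fun h j => (h j).neg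

theorem latt_of_rep {w : V m} {γ : V m ≃ᵃ[ℂ] V m} (h : Rep γ 1 1 0 w) : w ∈ latt (Gam m) := by
  rw [mem_latt]
  have : AffineEquiv.constVAdd ℂ (V m) w = γ := by
    apply AffineEquiv.ext
    intro v
    rw [h.eq, A_one, add_comm]
    rfl
  rw [this]
  exact ⟨1, 1, 0, w, h⟩

theorem latt_of_G {w : V m} (hw : IsG w) : w ∈ latt (Gam m) := by
  obtain ⟨γ, h⟩ := hw.rep
  exact latt_of_rep h

theorem Rep.gauss {γ : V m ≃ᵃ[ℂ] V m} {e1 e2 : ℤˣ} {a : ZMod m} {w : V m}
    (h : Rep γ e1 e2 a w) (j : J m) : IsGauss (2 * m * w.1 j) := by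
  rcases j with k | ⟨b, i⟩
  · exact (h.cong k).gauss
  · have h1 : ∀ s : Finset (ZMod m),
        IsGauss (∑ i' ∈ s, (w.1 (Sum.inr (b, i)) - w.1 (Sum.inr (b, i')))) := by
      intro s
      classical
      induction s using Finset.induction_on with
      | empty => exact isGauss_zero
      | insert x s hx ih =>
        rw [Finset.sum_insert hx]
        exact (h.diff b i x).add ih
    have h2 := h1 Finset.univ
    rw [Finset.sum_sub_distrib, w.2 b, sub_zero, Finset.sum_const, Finset.card_univ, ZMod.card,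
      nsmul_eq_mul] at h2
    have h3 := h2.add h2
    have e : 2 * (m : ℂ) * w.1 (Sum.inr (b, i))
        = (m : ℂ) * w.1 (Sum.inr (b, i)) + (m : ℂ) * w.1 (Sum.inr (b, i)) := by ring
    rwa [e]

theorem gauss_of_latt {w : V m} (hw : w ∈ latt (Gam m)) (j : J m) :
    IsGauss (2 * m * w.1 j) := by
  rw [mem_latt] at hw
  obtain ⟨e1, e2, a, w', h⟩ := hw
  have h0 : w = w' := by
    have h1 : w + 0 = A e1 e2 a 0 + w' := h.eq 0
    rwa [add_zero, map_zero, zero_add] at h1
  rw [h0]
  exact h.gauss j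

/-- The elementary vectors. -/
noncomputable def el (j : J m) (z : ℂ) : V m := by
  classical
  exact ⟨fun j' => (if j' = j then z else 0) -
      (match j with
        | Sum.inl _ => 0
        | Sum.inr p => if j' = Sum.inr (p.1, 0) then z else 0), fun b => by
      rcases j with k | ⟨b', i'⟩
      · simp
      · rw [Finset.sum_sub_distrib]
        by_cases hb : b = b'
        · simp [hb]
        · simp [hb]⟩

theorem el_inl [DecidableEq (J m)] (k : Fin 3) (z : ℂ) (j' : J m) :
    (el (Sum.inl k) z).1 j' = if j' = Sum.inl k then z else 0 := by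
  simp only [el, sub_zero]
  congr

theorem el_inr [DecidableEq (J m)] (p : Bool × ZMod m) (z : ℂ) (j' : J m) :
    (el (Sum.inr p) z).1 j' = (if j' = Sum.inr p then z else 0)
      - if j' = Sum.inr (p.1, 0) then z else 0 := by
  simp only [el]
  congr

theorem el_G (j : J m) {z : ℂ} (hz : IsGauss z) : IsG (el j z) := by
  classical
  have h1 : ∀ P : Prop, [Decidable P] → IsGauss (if P then z else 0) := by
    intro P _
    by_cases h : P
    · rwa [if_pos h]
    · rw [if_neg h]
      exact isGauss_zero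
  intro j'
  rcases j with k | p
  · rw [el_inl]
    exact h1 _
  · rw [el_inr, sub_eq_add_neg]
    exact (h1 _).add (h1 _).neg

theorem coe_sum {ι : Type} (s : Finset ι) (f : ι → V m) (j : J m) :
    (∑ i ∈ s, f i).1 j = ∑ i ∈ s, (f i).1 j := by
  have : (∑ i ∈ s, f i).1 = ∑ i ∈ s, (f i).1 := by
    push_cast
    rfl
  rw [this, Finset.sum_apply]

theorem decomp (v : V m) : v = ∑ j, el j (v.1 j) := by
  classical
  refine Subtype.ext (funext fun j' => ?_)
  rw [coe_sum, Fintype.sum_sum_type]
  have e1 : ∑ k : Fin 3, (el (Sum.inl k) (v.1 (Sum.inl k))).1 j'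
      = ∑ k : Fin 3, if j' = Sum.inl k then v.1 (Sum.inl k) else 0 :=
    Finset.sum_congr rfl fun k _ => el_inl _ _ _
  have e2 : ∑ p : Bool × ZMod m, (el (Sum.inr p) (v.1 (Sum.inr p))).1 j'
      = ∑ p : Bool × ZMod m, ((if j' = Sum.inr p then v.1 (Sum.inr p) else 0)
        - if j' = Sum.inr (p.1, 0) then v.1 (Sum.inr p) else 0) :=
    Finset.sum_congr rfl fun p _ => el_inr _ _ _
  rw [e1, e2]
  rcases j' with k' | ⟨b', i'⟩
  · simp
  · rw [Finset.sum_sub_distrib]
    have e3 : ∑ p : Bool × ZMod m, (if (Sum.inr (b', i') : J m) = Sum.inr (p.1, 0)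
        then v.1 (Sum.inr p) else 0) = 0 := by
      rw [Fintype.sum_prod_type]
      by_cases hi : i' = 0
      · subst hi
        have : ∀ b : Bool, ∑ i : ZMod m, (if (Sum.inr (b', 0) : J m) = Sum.inr (b, 0)
            then v.1 (Sum.inr (b, i)) else 0) = 0 := by
          intro b
          by_cases hb : b' = b
          · subst hb
            simpa using v.2 b'
          · simp [hb]
        exact Finset.sum_eq_zero fun b _ => this b
      · simp [hi]
    rw [e3, sub_zero]
    simp

theorem el_smul (j : J m) (r : ℝ) (z : ℂ) : el j (r * z) = r • el j z := by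
  classical
  refine Subtype.ext (funext fun j' => ?_)
  have e1 : (r • el j z).1 j' = (r : ℂ) * (el j z).1 j' := by
    change r • (el j z).1 j' = _
    rw [Complex.real_smul]
  rw [e1]
  rcases j with k | p
  · rw [el_inl, el_inl, mul_ite, mul_zero]
  · rw [el_inr, el_inr, mul_sub, mul_ite, mul_ite, mul_zero]

theorem el_add (j : J m) (z z' : ℂ) : el j (z + z') = el j z + el j z' := by
  classical
  refine Subtype.ext (funext fun j' => ?_)
  have e1 : (el j z + el j z').1 j' = (el j z).1 j' + (el j z').1 j' := rfl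
  rw [e1]
  rcases j with k | p
  · rw [el_inl, el_inl, el_inl]
    split_ifs <;> ring
  · rw [el_inr, el_inr, el_inr]
    split_ifs <;> ring

theorem span_Lam : Submodule.span ℝ (Lam m : Set (V m)) = ⊤ := by
  rw [Submodule.eq_top_iff']
  intro v
  rw [decomp v]
  refine Submodule.sum_mem _ fun j _ => ?_
  have h1 : v.1 j = (v.1 j).re * 1 + (v.1 j).im * Complex.I := by
    rw [mul_one, Complex.re_add_im]
  rw [h1, el_add, el_smul, el_smul]
  refine Submodule.add_mem _ (Submodule.smul_mem _ _ (Submodule.subset_span ?_))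
    (Submodule.smul_mem _ _ (Submodule.subset_span ?_))
  · exact el_G j isGauss_one
  · exact el_G j (⟨0, 1, by simp⟩ : IsGauss Complex.I)

theorem tq : IsTorusQuotient (Gam m) where
  discrete := by
    have hp0 : (0 : ℝ) < 2 * m := by
      have : (0 : ℝ) < m := by exact_mod_cast (NeZero.pos m)
      positivity
    refine discreteTopology_iff_isOpen_singleton_zero.mpr
      ⟨Metric.ball 0 (1 / (2 * m)), Metric.isOpen_ball, ?_⟩
    ext ⟨v, hv⟩
    simp only [Set.mem_preimage, mem_ball_zero_iff, Set.mem_singleton_iff]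
    constructor
    · intro h
      apply Subtype.ext
      refine Subtype.ext (funext fun j => ?_)
      have h1 : ‖v.1 j‖ < 1 / (2 * m) := (norm_le_pi_norm v.1 j).trans_lt h
      have h2 : 2 * (m : ℂ) * v.1 j = 0 := by
        apply gauss_small (gauss_of_latt hv j)
        rw [norm_mul, norm_mul, Complex.norm_natCast, Complex.norm_ofNat]
        have := mul_lt_mul_of_pos_left h1 hp0
        rwa [mul_one_div_cancel hp0.ne'] at this
      have h3 : 2 * (m : ℂ) ≠ 0 := mul_ne_zero two_ne_zero m_ne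
      exact (mul_eq_zero.1 h2).resolve_left h3
    · intro h
      have h' : v = 0 := congrArg Subtype.val h
      rw [h', norm_zero]
      positivity
  span_top := by
    refine top_le_iff.1 ?_
    rw [← span_Lam (m := m)]
    exact Submodule.span_mono fun w hw => latt_of_G hw
  finite_linear := by
    have hfin : (Set.range fun p : ℤˣ × ℤˣ × ZMod m =>
        (A p.1 p.2.1 p.2.2 : V m →ₗ[ℂ] V m)).Finite := Set.finite_range _
    have h : {B : V m ≃ₗ[ℂ] V m | ∃ γ ∈ Gam m, γ.linear = B} ⊆
        (fun B : V m ≃ₗ[ℂ] V m => (B : V m →ₗ[ℂ] V m)) ⁻¹'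
          (Set.range fun p : ℤˣ × ℤˣ × ZMod m => (A p.1 p.2.1 p.2.2 : V m →ₗ[ℂ] V m)) := by
      rintro _ ⟨γ, ⟨e1, e2, a, w, h⟩, rfl⟩
      exact ⟨(e1, e2, a), LinearMap.ext fun v => (h.linear v).symm⟩
    exact (hfin.preimage (Set.injOn_of_injective LinearEquiv.toLinearMap_injective)).subset h

/-- The dimension. -/
theorem finrank_V : finrank ℂ (V m) = 2 * m + 1 := by
  classical
  let f : (J m → ℂ) →ₗ[ℂ] (Bool → ℂ) :=
    { toFun := fun v b => ∑ i, v (Sum.inr (b, i))
      map_add' := fun v w => funext fun b => Finset.sum_add_distrib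
      map_smul' := fun c v => funext fun b => (Finset.mul_sum _ _ _).symm }
  have hker : LinearMap.ker f = S m := by
    ext v
    rw [LinearMap.mem_ker]
    exact funext_iff
  have hsurj : Function.Surjective f := by
    intro y
    refine ⟨fun j => match j with
      | Sum.inl _ => 0
      | Sum.inr p => if p.2 = 0 then y p.1 else 0, funext fun b => ?_⟩
    change ∑ i : ZMod m, (if i = 0 then y b else 0) = y b
    simp
  have h1 := LinearMap.finrank_range_add_finrank_ker f
  rw [LinearMap.range_eq_top.2 hsurj, finrank_top, hker, finrank_fintype_fun_eq_card,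
    finrank_fintype_fun_eq_card, Fintype.card_sum, Fintype.card_prod, Fintype.card_fin,
    Fintype.card_bool, ZMod.card] at h1
  change finrank ℂ (S m) = _
  omega

/-- The sum of all linear parts is zero. -/
theorem sum_A (v : V m) : ∑ e1 : ℤˣ, ∑ e2 : ℤˣ, ∑ a : ZMod m, A e1 e2 a v = 0 := by
  have hu : ∀ f : ℤˣ → ℂ, ∑ e : ℤˣ, f e = f 1 + f (-1) := by
    intro f
    have : (Finset.univ : Finset ℤˣ) = {1, -1} := by decide
    rw [this, Finset.sum_pair (by decide)]
  refine ext_V (fun k => ?_) fun b i => ?_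
  · rw [coe_sum]
    simp only [coe_sum]
    change ∑ e1 : ℤˣ, ∑ e2 : ℤˣ, ∑ _a : ZMod m, ((sg e1 e2 k : ℤ) : ℂ) * v.1 (Sum.inl k) = 0
    simp only [Finset.sum_const, Finset.card_univ, ZMod.card, hu, nsmul_eq_mul]
    fin_cases k <;> simp [sg]
  · rw [coe_sum]
    simp only [coe_sum]
    refine Finset.sum_eq_zero fun e1 _ => Finset.sum_eq_zero fun e2 _ => ?_
    change ∑ a : ZMod m, v.1 (Sum.inr (b, cz e1 * (i - a))) = 0
    rw [← v.2 b]
    exact Equiv.sum_comp ((Equiv.subLeft i).trans (pm e1 0))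
      (fun x => v.1 (Sum.inr (b, x))) |> fun h => by
        refine Eq.trans (Finset.sum_congr rfl fun a _ => ?_) h
        change _ = v.1 (Sum.inr (b, cz e1 * (i - a - 0)))
        rw [sub_zero]

/-- `H^1(X, O_X) = 0`. -/
theorem hone : HOneZero (Gam m) := by
  intro ℓ hℓ
  have hA : ∀ (e1 e2 : ℤˣ) (a : ZMod m) (v : V m), ℓ (A e1 e2 a v) = ℓ v := by
    intro e1 e2 a v
    obtain ⟨w, γ, h⟩ := exists_elt e1 e2 a
    have := hℓ γ ⟨e1, e2, a, w, h⟩ v
    rwa [h.linear] at this
  apply LinearMap.ext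
  intro v
  have h1 := congrArg ℓ (sum_A v)
  simp only [map_sum, map_zero, hA, Finset.sum_const, Finset.card_univ, ZMod.card,
    nsmul_eq_mul] at h1
  have h2 : (Fintype.card ℤˣ : ℂ) ≠ 0 := by
    exact_mod_cast Fintype.card_ne_zero
  have h3 := (mul_eq_zero.1 ((mul_eq_zero.1 h1).resolve_left h2)).resolve_left h2
  exact (mul_eq_zero.1 h3).resolve_left m_ne

end Pool.Agent.H14.LI
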